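import Mathlib

set_option autoImplicit false
open Finset Filter Asymptotics

namespace Pool.Agent.Results.MP_13da68_co.Cubic

/-- `S` tiles `ℤ^d` by translations. -/
def Tiles {d : ℕ} (S : Finset (Fin d → ℤ)) : Prop :=
  ∃ T : Set (Fin d → ℤ), ∀ x, ∃! p : (Fin d → ℤ) × (Fin d → ℤ), p.1 ∈ S ∧ p.2 ∈ T ∧ x = p.1 + p.2

open Classical in
/-- The number of subsets of `[n]^d` that tile `ℤ^d` by translations. -/
noncomputable def t (n d : ℕ) : ℕ :=
  #((Fintype.piFinset fun _ : Fin d => Icc (1 : ℤ) n).powerset.filter Tiles)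

def L (m n : ℕ) (θ : ℕ × ℕ × ℕ) (a b : Fin 3 → ℤ) : Prop :=
  ∃ i j k : ℤ, a 0 - b 0 = i * m ∧ a 1 - b 1 = i * θ.1 + j * n ∧ a 2 - b 2 = i * θ.2.1 + j * θ.2.2 + k * n

def up (m n : ℕ) (θ : ℕ × ℕ × ℕ) (k : Fin 3) (x : Fin m) (p : Fin n × Fin n) : Fin 3 → ℤ :=
  ![x + k * m + 1, (p.1 + k * θ.1) % n + 1, (p.2 + k * θ.2.1 - (p.1 + k * θ.1) / n * θ.2.2) % n + 1]

variable {m n : ℕ} {θ : ℕ × ℕ × ℕ}

theorem L.symm {a b : Fin 3 → ℤ} : L m n θ a b → L m n θ b a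
  | ⟨i, j, k, h1, h2, h3⟩ => ⟨-i, -j, -k, by linarith, by linarith, by linarith⟩

theorem L.trans {a b c : Fin 3 → ℤ} : L m n θ a b → L m n θ b c → L m n θ a c
  | ⟨i, j, k, h1, h2, h3⟩, ⟨i', j', k', g1, g2, g3⟩ =>
    ⟨i + i', j + j', k + k', by linarith, by linarith, by linarith⟩

theorem z0 {i a : ℤ} {m : ℕ} (h : a = i * m) (h1 : -(m : ℤ) < a) (h2 : a < m) : i = 0 := by
  by_contra c
  rcases lt_or_gt_of_ne c with c | c <;> nlinarith

theorem L.eq {a b : Fin 3 → ℤ} (h : L m n θ a b) (h0 : -(m : ℤ) < a 0 - b 0 ∧ a 0 - b 0 < m)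
    (h1 : -(n : ℤ) < a 1 - b 1 ∧ a 1 - b 1 < n) (h2 : -(n : ℤ) < a 2 - b 2 ∧ a 2 - b 2 < n) : a = b := by
  obtain ⟨i, j, k, e1, e2, e3⟩ := h
  obtain rfl := z0 e1 h0.1 h0.2
  obtain rfl := z0 (i := j) (by linarith) h1.1 h1.2
  obtain rfl := z0 (i := k) (by linarith) h2.1 h2.2
  funext i; fin_cases i <;> simp <;> linarith

theorem up_L (k : Fin 3) (x : Fin m) (p : Fin n × Fin n) :
    L m n θ (up m n θ k x p) ![x + 1, p.1 + 1, p.2 + 1] :=
  ⟨k, -((p.1 + k * θ.1) / n), -((p.2 + k * θ.2.1 - (p.1 + k * θ.1) / n * θ.2.2) / n), by simp [up],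
    by simp [up, Int.emod_def]; ring, by simp [up, Int.emod_def]; ring⟩

theorem up_bd (hn : 0 < n) (k : Fin 3) (x : Fin m) (p : Fin n × Fin n) :
    up m n θ k x p 0 = x + k * m + 1 ∧ (1 ≤ up m n θ k x p 1 ∧ up m n θ k x p 1 ≤ n) ∧
      (1 ≤ up m n θ k x p 2 ∧ up m n θ k x p 2 ≤ n) := by
  have h : (0 : ℤ) < n := by exact_mod_cast hn
  have a := fun z : ℤ => Int.emod_nonneg z h.ne'
  have b := fun z : ℤ => Int.emod_lt_of_pos z h
  exact ⟨rfl, ⟨le_add_of_nonneg_left (a _), b _⟩, le_add_of_nonneg_left (a _), b _⟩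

theorem red (hm : 0 < m) (hn : 0 < n) (X : Fin 3 → ℤ) :
    ∃ (x : Fin m) (p : Fin n × Fin n), L m n θ X ![x + 1, p.1 + 1, p.2 + 1] := by
  have f : ∀ {n : ℕ}, 0 < n → ∀ z : ℤ, ∃ (x : Fin n) (i : ℤ), z = x + i * n := fun {n} hn z => by
    have h : (0 : ℤ) < n := by exact_mod_cast hn
    have a := Int.emod_nonneg z h.ne'
    have b := Int.emod_lt_of_pos z h
    exact ⟨⟨(z % n).toNat, by omega⟩, z / n, by
      simp only [Int.toNat_of_nonneg a]; rw [Int.emod_def]; ring⟩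
  obtain ⟨x, i, h1⟩ := f hm (X 0 - 1)
  obtain ⟨y, j, h2⟩ := f hn (X 1 - 1 - i * θ.1)
  obtain ⟨z, k, h3⟩ := f hn (X 2 - 1 - i * θ.2.1 - j * θ.2.2)
  exact ⟨x, (y, z), i, j, k, by simp; linarith, by simp; linarith, by simp; linarith⟩

theorem up_inj {k k' : Fin 3} {x x' : Fin m} {p p' : Fin n × Fin n}
    (h : L m n θ (up m n θ k x p) (up m n θ k' x' p')) : x = x' ∧ p = p' := by
  have := x.2; have := x'.2; have := p.1.2; have := p.2.2; have := p'.1.2; have := p'.2.2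
  have e := (((up_L k x p).symm.trans h).trans (up_L k' x' p')).eq (by simp; omega) (by simp; omega)
    (by simp; omega)
  have e0 := congrFun e 0
  have e1 := congrFun e 1
  have e2 := congrFun e 2
  simp at e0 e1 e2
  exact ⟨Fin.ext e0, Prod.ext (Fin.ext e1) (Fin.ext e2)⟩

theorem up_k {θ' : ℕ × ℕ × ℕ} {k k' : Fin 3} {x x' : Fin m} {p p' : Fin n × Fin n}
    (h : up m n θ k x p = up m n θ' k' x' p') : k = k' := by
  have e : (x : ℤ) + k * m + 1 = x' + k' * m + 1 := congrFun h 0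
  have := x.2; have := x'.2
  have := z0 (i := (k : ℤ) - k') (a := x' - x) (m := m) (by linarith) (by omega) (by omega)
  ext; omega

theorem up_0 (θ' : ℕ × ℕ × ℕ) (x : Fin m) (p : Fin n × Fin n) : up m n θ 0 x p = up m n θ' 0 x p := by
  have : ((p.1 : ℕ) : ℤ) / n = 0 := Int.ediv_eq_zero_of_lt (by positivity) (by exact_mod_cast p.1.2)
  simp [up, this]

theorem L.rfl' {a : Fin 3 → ℤ} : L m n θ a a := ⟨0, 0, 0, by simp, by simp, by simp⟩

def S (θ : ℕ × ℕ × ℕ) (c : Fin m → Fin n × Fin n → Fin 3) : Finset (Fin 3 → ℤ) :=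
  univ.image fun z : Fin m × Fin n × Fin n => up m n θ (c z.1 z.2) z.1 z.2

theorem tiles (hm : 0 < m) (hn : 0 < n) (c : Fin m → Fin n × Fin n → Fin 3) : Tiles (S θ c) := by
  refine ⟨{a | L m n θ a 0}, fun X => ?_⟩
  have k : ∀ a b : Fin 3 → ℤ, L m n θ b 0 → L m n θ (a + b) a := fun a b => by simp [L]
  obtain ⟨x, p, h⟩ := red (θ := θ) hm hn X
  refine ⟨(up m n θ (c x p) x p, X - up m n θ (c x p) x p), ⟨mem_image_of_mem _ (mem_univ (x, p)), ?_,
    by simp⟩, ?_⟩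
  · simpa [L] using h.trans (up_L (c x p) x p).symm
  · rintro ⟨a, b⟩ ⟨h1, h2, rfl⟩
    obtain ⟨⟨x', p'⟩, -, rfl⟩ := mem_image.mp h1
    obtain ⟨rfl, rfl⟩ := up_inj (((k _ _ h2).symm.trans h).trans (up_L (c x p) x p).symm)
    simp

theorem dif (hm : 0 < m) {θ' : ℕ × ℕ × ℕ} (h : θ ∈ Ico 1 n ×ˢ range n ×ˢ range n)
    (h' : θ' ∈ Ico 1 n ×ˢ range n ×ˢ range n) (ne : θ ≠ θ') :
    ∃ p p' : Fin n × Fin n, p ≠ p' ∧ ∀ x, up m n θ 1 x p' = up m n θ' 1 x p := by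
  simp only [mem_product, mem_Ico, mem_range] at h h'
  have hn : 0 < n := by omega
  have : ∃ p, up m n θ 1 ⟨0, hm⟩ p ≠ up m n θ' 1 ⟨0, hm⟩ p := by
    by_contra c
    push Not at c
    obtain ⟨u, w, z⟩ := θ
    obtain ⟨u', w', z'⟩ := θ'
    dsimp only at h h'
    have a1 := congrFun (c (⟨0, hn⟩, ⟨0, hn⟩)) 1
    have a2 := congrFun (c (⟨0, hn⟩, ⟨0, hn⟩)) 2
    have a3 := congrFun (c (⟨n - 1, by omega⟩, ⟨0, hn⟩)) 2
    have f : ∀ u : ℕ, u < n → (u : ℤ) % n = u ∧ (u : ℤ) / n = 0 := fun u hu =>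
      ⟨Int.emod_eq_of_lt (by positivity) (by omega), Int.ediv_eq_zero_of_lt (by positivity) (by omega)⟩
    simp [up, f u h.1.2, f u' h'.1.2, f w h.2.1, f w' h'.2.1] at a1 a2
    subst a1 a2
    have g : (((n - 1 : ℕ) : ℤ) + u) / n = 1 := by
      rw [show ((n - 1 : ℕ) : ℤ) + u = (u - 1 : ℕ) + 1 * n by omega, Int.add_mul_ediv_right _ _ (by omega),
        (f _ (by omega)).2]; rfl
    simp only [up, Matrix.cons_val, Fin.val_one, Nat.cast_one, one_mul, g, add_left_inj] at a3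
    obtain ⟨i, hi⟩ := Int.ModEq.dvd a3
    have := z0 (i := i) (a := z - z') (m := n) (by linarith) (by omega) (by omega)
    subst this
    exact ne (by rw [show z = z' by omega])
  obtain ⟨p, hp⟩ := this
  obtain ⟨x0, p', e⟩ := red (θ := θ) hm hn (up m n θ' 1 ⟨0, hm⟩ p)
  have b1 := up_bd (θ := θ) hn 1 x0 p'
  have b2 := up_bd (θ := θ') hn 1 ⟨0, hm⟩ p
  have := x0.2
  have e := (e.trans (up_L 1 x0 p').symm).eq (by rw [b1.1, b2.1]; simp; omega) (by omega) (by omega)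
  have k : ∀ x, up m n θ 1 x p' = up m n θ' 1 x p := fun x => by
    funext i
    fin_cases i
    · rfl
    · exact (congrFun e 1).symm
    · exact (congrFun e 2).symm
  exact ⟨p, p', fun c => hp (by rw [← k, c]), k⟩

theorem frac {P : Type} [Fintype P] [DecidableEq P] {p p' : P} (h : p ≠ p') :
    9 * #(univ.filter fun f : P → Fin 3 => ¬(f p = 0 ∧ f p' = 1)) ≤ 8 * 3 ^ Fintype.card P := by
  have a := card_filter_add_card_filter_not (s := univ) fun f : P → Fin 3 => f p = 0 ∧ f p' = 1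
  have b : #(univ : Finset (P → Fin 3)) ≤
      #((univ.filter fun f : P → Fin 3 => f p = 0 ∧ f p' = 1) ×ˢ (univ : Finset (Fin 3 × Fin 3))) := by
    refine card_le_card_of_injOn (fun f => (Function.update (Function.update f p 0) p' 1, f p, f p'))
      (fun f _ => by simp [h]) fun f _ g _ e => ?_
    simp only [Prod.mk.injEq] at e
    funext q
    have := congrFun e.1 q
    grind
  simp at a b ⊢
  omega

theorem low (hm : 0 < m) (hb : 2 * (3 * m) ^ 3 * 8 ^ m ≤ 9 ^ m) :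
    (3 * m - 1) * (3 * m * (3 * m)) * 3 ^ (3 * m * (3 * m) * m) ≤ 2 * t (3 * m) 3 := by
  classical
  obtain ⟨n, hn⟩ : ∃ n, n = 3 * m := ⟨_, rfl⟩
  rw [← hn] at hb ⊢
  let Θ := Ico 1 n ×ˢ range n ×ˢ range n
  have cΘ : #Θ = (n - 1) * (n * n) := by simp [Θ]
  have : ∀ θ θ' : ℕ × ℕ × ℕ, ∃ p p' : Fin n × Fin n, p ≠ p' ∧
      (θ ∈ Θ → θ' ∈ Θ → θ ≠ θ' → ∀ x, up m n θ 1 x p' = up m n θ' 1 x p) := by
    intro θ θ'
    by_cases c : θ ∈ Θ ∧ θ' ∈ Θ ∧ θ ≠ θ'
    · obtain ⟨p, p', a, b⟩ := dif hm c.1 c.2.1 c.2.2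
      exact ⟨p, p', a, fun _ _ _ => b⟩
    · exact ⟨(⟨0, by omega⟩, ⟨0, by omega⟩), (⟨0, by omega⟩, ⟨1, by omega⟩), by simp,
        fun a b d => (c ⟨a, b, d⟩).elim⟩
  choose p p' h1 h2 using this
  let G : ℕ × ℕ × ℕ → Finset (Fin m → Fin n × Fin n → Fin 3) := fun θ =>
    univ.filter fun c => ∀ θ' ∈ Θ, ∃ x, c x (p θ θ') = 0 ∧ c x (p' θ θ') = 1
  have cG : ∀ θ, 3 ^ (n * n * m) ≤ 2 * #(G θ) := by
    intro θ
    have a := card_filter_add_card_filter_not (s := (univ : Finset (Fin m → Fin n × Fin n → Fin 3)))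
      fun c => ∀ θ' ∈ Θ, ∃ x, c x (p θ θ') = 0 ∧ c x (p' θ θ') = 1
    have b : (univ.filter fun c : Fin m → Fin n × Fin n → Fin 3 =>
        ¬∀ θ' ∈ Θ, ∃ x, c x (p θ θ') = 0 ∧ c x (p' θ θ') = 1) ⊆ Θ.biUnion fun θ' =>
        Fintype.piFinset fun _ => univ.filter fun f => ¬(f (p θ θ') = 0 ∧ f (p' θ θ') = 1) := by
      intro c hc
      have := (mem_filter.mp hc).2
      simp only [not_forall, not_exists] at this
      obtain ⟨θ', a, b⟩ := this
      exact mem_biUnion.mpr ⟨θ', a, Fintype.mem_piFinset.mpr fun x => mem_filter.mpr ⟨mem_univ _, b x⟩⟩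
    have c := (card_le_card b).trans card_biUnion_le
    have d : 9 ^ m * ∑ θ' ∈ Θ, #(Fintype.piFinset fun _ : Fin m => univ.filter fun f : Fin n × Fin n → Fin 3 =>
        ¬(f (p θ θ') = 0 ∧ f (p' θ θ') = 1)) ≤ #Θ * (8 ^ m * 3 ^ (n * n * m)) := by
      rw [mul_sum, ← smul_eq_mul #Θ]
      refine sum_le_card_nsmul _ _ _ fun θ' _ => ?_
      rw [Fintype.card_piFinset_const, ← mul_pow, pow_mul, ← mul_pow]
      exact Nat.pow_le_pow_left (by simpa using frac (h1 θ θ')) _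
    have e : #(univ : Finset (Fin m → Fin n × Fin n → Fin 3)) = 3 ^ (n * n * m) := by simp [pow_mul]
    have f : 2 * (#Θ * (8 ^ m * 3 ^ (n * n * m))) ≤ 9 ^ m * 3 ^ (n * n * m) := by
      rw [← mul_assoc, ← mul_assoc]
      refine Nat.mul_le_mul_right _ (le_trans (Nat.mul_le_mul_right _ (Nat.mul_le_mul_left _ ?_)) hb)
      rw [cΘ, pow_three]; exact Nat.mul_le_mul_right _ (by omega)
    have g := Nat.le_of_mul_le_mul_left ((mul_left_comm _ _ _).le.trans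
      ((Nat.mul_le_mul_left 2 ((Nat.mul_le_mul_left _ c).trans d)).trans f)) (by positivity)
    simp only [G]; omega
  have : #(Θ.sigma G) ≤ t n 3 := by
    refine card_le_card_of_injOn (fun z => S z.1 z.2) (fun z _ => ?_) ?_
    · refine mem_coe.mpr (mem_filter.mpr ⟨mem_powerset.mpr (image_subset_iff.mpr fun y _ => ?_),
        tiles hm (by omega) _⟩)
      have := up_bd (θ := z.1) (show 0 < n by omega) (z.2 y.1 y.2) y.1 y.2
      refine Fintype.mem_piFinset.mpr fun i => mem_Icc.mpr ?_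
      fin_cases i
      · have a := y.1.2
        have b := (z.2 y.1 y.2).2
        change 1 ≤ up _ _ _ _ _ _ 0 ∧ up _ _ _ _ _ _ 0 ≤ _
        rw [this.1]
        constructor
        · exact le_add_of_nonneg_left (by positivity)
        · zify at a b hn; nlinarith
      · exact this.2.1
      · exact this.2.2
    · rintro ⟨θ, c⟩ h ⟨θ', c'⟩ h' e
      obtain ⟨a1, a2⟩ := mem_sigma.mp h
      have key : ∀ x q k x' q', up m n θ (c x q) x q = up m n θ' k x' q' → c' x' q' = k := by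
        intro x q k x' q' h
        have : up m n θ (c x q) x q ∈ S θ' c' :=
          (show S θ c = S θ' c' from e) ▸ mem_image_of_mem _ (mem_univ (x, q))
        obtain ⟨⟨y, r⟩, -, b⟩ := mem_image.mp this
        rw [h] at b
        obtain ⟨rfl, rfl⟩ := up_inj (b ▸ L.rfl' : L m n θ' (up m n θ' (c' y r) y r) (up m n θ' k x' q'))
        exact up_k b
      by_cases d : θ = θ'
      · subst d
        rw [show c = c' from funext fun x => funext fun q => (key x q _ x q rfl).symm]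
      · obtain ⟨x, b1, b2⟩ := (mem_filter.mp a2).2 θ' (mem_sigma.mp h').1
        dsimp only at b1 b2
        have u := key x (p θ θ') 0 x (p θ θ') (by rw [b1]; exact up_0 _ _ _)
        have v := key x (p' θ θ') 1 x (p θ θ') (by rw [b2]; exact h2 θ θ' a1 (mem_sigma.mp h').1 d x)
        rw [u] at v; simp at v
  rw [card_sigma] at this
  refine le_trans ?_ (Nat.mul_le_mul_left 2 this)
  rw [mul_sum, ← cΘ, ← smul_eq_mul]
  exact card_nsmul_le_sum _ _ _ fun θ _ => cG θ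

theorem result : ¬ (fun n : ℕ => (t n 3 : ℝ)) =O[atTop]
    fun n : ℕ => (n : ℝ) ^ (3 - 1) * ((3 : ℝ) ^ (1 / 3 : ℝ)) ^ n ^ 3 := by
  intro h
  obtain ⟨C, hC, h⟩ := h.exists_pos
  obtain ⟨N, hN⟩ := eventually_atTop.mp h.bound
  have := (tendsto_pow_const_mul_const_pow_of_abs_lt_one 3 (r := 8 / 9)
    (by rw [abs_of_pos] <;> norm_num)).eventually (gt_mem_nhds (show (0 : ℝ) < 1 / 54 by norm_num))
  obtain ⟨m, ⟨m1, m2⟩, m3⟩ := ((this.and (eventually_ge_atTop (N + 1))).and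
    (tendsto_natCast_atTop_atTop.eventually_gt_atTop (C + 1))).exists
  have l := low (m := m) (by omega) (by
    rw [div_pow, ← mul_div_assoc, div_lt_div_iff₀ (by positivity) (by positivity)] at m1
    have : (2 * (3 * m) ^ 3 * 8 ^ m : ℝ) ≤ 9 ^ m := by linarith
    exact_mod_cast this)
  have u := hN (3 * m) (by omega)
  have e : ((3 : ℝ) ^ (1 / 3 : ℝ)) ^ (3 * m) ^ 3 = 3 ^ (3 * m * (3 * m) * m) := by
    rw [show (3 * m) ^ 3 = 3 * (3 * m * (3 * m) * m) by ring, pow_mul, ← Real.rpow_natCast _ 3,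
      ← Real.rpow_mul (by norm_num)]; norm_num
  rw [e, Real.norm_of_nonneg (by positivity), Real.norm_of_nonneg (by positivity)] at u
  have l' : ((3 * m - 1 : ℝ)) * (3 * m * (3 * m)) * 3 ^ (3 * m * (3 * m) * m) ≤ 2 * t (3 * m) 3 := by
    have : ((3 * m - 1 : ℕ) : ℝ) = 3 * m - 1 := by rw [Nat.cast_sub (by omega)]; simp
    rw [← this]; exact_mod_cast l
  have p : (0 : ℝ) < (3 * m * (3 * m)) * 3 ^ (3 * m * (3 * m) * m) := by
    have : (0 : ℝ) < m := by linarith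
    positivity
  push_cast at u
  nlinarith

end Pool.Agent.Results.MP_13da68_co.Cubic
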